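import Pool.Agent.H47.VC.Stage

/-!
# Attaching a section of a central extension to a tree for the central subgroup
-/

namespace Pool.Agent.H47.VC

open Pool.Agent.H47.CD Pool.Agent.H47.VA

universe u v w

theorem isRegular_concat {α : Type u} {M K : Language α} (hM : M.IsRegular) (hK : K.IsRegular)
    (L : Language α) (hL : ∀ v, v ∈ L ↔ ∃ w ∈ M, ∃ t ∈ K, v = w ++ t) : L.IsRegular := by
  classical
  obtain ⟨σ, hσ, step, s0, acc, hacc⟩ := exists_fold hM
  obtain ⟨τ, hτ, stp, t0, fin, hfin⟩ := exists_fold hK
  set st : σ × Set τ → α → σ × Set τ := fun s a => (step s.1 a,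
    {y | (∃ x ∈ s.2, y = stp x a) ∨ (step s.1 a ∈ acc ∧ y = t0)}) with hst
  refine isRegular_of_fold st (s0, {y | s0 ∈ acc ∧ y = t0}) {s | ∃ x ∈ s.2, x ∈ fin} L ?_
  intro v
  have key : ∀ v : List α, v.foldl st (s0, {y | s0 ∈ acc ∧ y = t0}) =
      (v.foldl step s0, {y | ∃ w ∈ M, ∃ t, v = w ++ t ∧ y = t.foldl stp t0}) := by
    intro v
    induction v using List.reverseRecOn with
    | nil =>
      refine Prod.ext rfl ?_
      ext y
      constructor
      · rintro ⟨h1, h2⟩
        exact ⟨[], (hacc []).2 h1, [], rfl, h2⟩
      · rintro ⟨w, hw, t, ht, hy⟩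
        have h1 : w = [] ∧ t = [] := List.append_eq_nil_iff.1 ht.symm
        obtain ⟨rfl, rfl⟩ := h1
        exact ⟨(hacc []).1 hw, hy⟩
    | append_singleton v a ih =>
      rw [List.foldl_append, ih, List.foldl_append]
      refine Prod.ext rfl ?_
      ext y
      constructor
      · rintro (⟨x, ⟨w, hw, t, ht, hx⟩, hy⟩ | ⟨h1, h2⟩)
        · refine ⟨w, hw, t ++ [a], ?_, ?_⟩
          · rw [ht, List.append_assoc]
          · rw [hy, hx, List.foldl_append]
            rfl
        · refine ⟨v ++ [a], ?_, [], by simp, by simpa using h2⟩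
          rw [hacc, List.foldl_append]
          exact h1
      · rintro ⟨w, hw, t, ht, hy⟩
        rcases t.eq_nil_or_concat with rfl | ⟨t, b, rfl⟩
        · right
          rw [List.append_nil] at ht
          subst ht
          refine ⟨?_, hy⟩
          have := (hacc _).1 hw
          rw [List.foldl_append] at this
          exact this
        · left
          rw [List.concat_eq_append, ← List.append_assoc] at ht
          obtain ⟨h1, h2⟩ := List.append_inj' ht rfl
          have h3 : a = b := by simpa using h2
          subst h3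
          refine ⟨t.foldl stp t0, ⟨w, hw, t, h1, rfl⟩, ?_⟩
          rw [hy, List.concat_eq_append, List.foldl_append]
          rfl
  rw [hL]
  change _ ↔ ∃ x ∈ (v.foldl st (s0, {y | s0 ∈ acc ∧ y = t0})).2, x ∈ fin
  rw [key]
  constructor
  · rintro ⟨w, hw, t, ht, hv⟩
    exact ⟨_, ⟨w, hw, t, hv, rfl⟩, (hfin t).1 ht⟩
  · rintro ⟨x, ⟨w, hw, t, hv, rfl⟩, hx⟩
    exact ⟨w, hw, t, (hfin t).2 hx, hv⟩

theorem isRegular_take {α : Type u} [Finite α] (m : ℕ) (S : Set (List α)) (L : Language α)
    (hL : ∀ v, v ∈ L ↔ v.take m ∈ S) : L.IsRegular := by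
  classical
  have : Finite {s : List α // s.length ≤ m} := List.finite_length_le α m
  refine isRegular_of_fold (σ := {s : List α // s.length ≤ m})
    (fun s a => if h : s.1.length < m then ⟨s.1 ++ [a], by simp; omega⟩ else s) ⟨[], by simp⟩
    {s | s.1 ∈ S} L ?_
  intro v
  have key : ∀ v : List α, (v.foldl (fun (s : {s : List α // s.length ≤ m}) a =>
      if h : s.1.length < m then (⟨s.1 ++ [a], by simp; omega⟩ : {s : List α // s.length ≤ m})
      else s) ⟨[], by simp⟩).1 = v.take m := by
    intro v
    induction v using List.reverseRecOn with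
    | nil => simp
    | append_singleton v a ih =>
      rw [List.foldl_append, List.foldl_cons, List.foldl_nil]
      split_ifs with h
      · rw [ih, List.length_take] at h
        simp only
        rw [ih, List.take_of_length_le (by omega), List.take_of_length_le (by simp; omega)]
      · rw [ih, List.length_take] at h
        rw [ih, List.take_append, show m - v.length = 0 by omega]
        simp
  rw [hL]
  change _ ↔ (v.foldl (fun (s : {s : List α // s.length ≤ m}) a =>
      if h : s.1.length < m then (⟨s.1 ++ [a], by simp; omega⟩ : {s : List α // s.length ≤ m})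
      else s) ⟨[], by simp⟩).1 ∈ S
  rw [key]

theorem isRegular_left {α : Type u} {M : Language α} (hM : M.IsRegular) (z : List α)
    (L : Language α) (hL : ∀ v, v ∈ L ↔ z ++ v ∈ M) : L.IsRegular := by
  obtain ⟨σ, hσ, step, s0, acc, hacc⟩ := exists_fold hM
  refine isRegular_of_fold step (z.foldl step s0) acc L ?_
  intro v
  rw [hL, hacc, List.foldl_append]

variable {G : Type u} [Group G] {A : Type v}

/-- The tree `T1` covers the central subgroup `N` and stays near it; `L` is a tree language which
is a section of `G → G / N` with bounded cocycle. -/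
theorem attach [Finite A] (ev : A → G) (N : Subgroup G) [hNn : N.Normal]
    (hN : ∀ x ∈ N, ∀ g : G, x * g = g * x) (T1 L : Language A) (h1 : Tree ev T1)
    (hNT : ∀ x ∈ N, Im ev T1 x)
    (F1 : Set G) (hF1 : F1.Finite) (hT1 : ∀ g, Im ev T1 g → ∃ μ ∈ N, ∃ f ∈ F1, g = μ * f)
    (h2 : Tree ev L)
    (hsec : ∀ u ∈ L, ∀ v ∈ L, ∀ n ∈ N, value ev u = n * value ev v → u = v)
    (honto : ∀ g : G, ∃ n ∈ N, ∃ z ∈ L, g = n * value ev z)
    (hbdd : ∀ g : G, Set.Finite {n : G | n ∈ N ∧ ∃ u ∈ L, ∃ v ∈ L,
      value ev u * g = n * value ev v}) :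
    ∃ T' : Language A, Tree ev T' ∧ ∀ g, Im ev T' g := by
  classical
  -- words of `L` near a finite set modulo `N` are short
  have hshort : ∀ F : Set G, F.Finite → ∃ C : ℕ, ∀ z ∈ L,
      (∃ μ ∈ N, ∃ f ∈ F, value ev z = μ * f) → z.length ≤ C := by
    intro F hF
    have hfin : Set.Finite {z : List A | z ∈ L ∧ ∃ μ ∈ N, ∃ f ∈ F, value ev z = μ * f} := by
      have hsub : {z : List A | z ∈ L ∧ ∃ μ ∈ N, ∃ f ∈ F, value ev z = μ * f} ⊆
          ⋃ f ∈ F, {z : List A | z ∈ L ∧ ∃ μ ∈ N, value ev z = μ * f} := by
        rintro z ⟨hz, μ, hμ, f, hf, h⟩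
        exact Set.mem_biUnion hf ⟨hz, μ, hμ, h⟩
      refine (hF.biUnion (fun f _ => Set.Subsingleton.finite ?_)).subset hsub
      rintro z ⟨hz, μ, hμ, h⟩ z' ⟨hz', μ', hμ', h'⟩
      refine hsec z hz z' hz' (μ * μ'⁻¹) (N.mul_mem hμ (N.inv_mem hμ')) ?_
      rw [h, h']
      group
    obtain ⟨C, hC⟩ := (hfin.image List.length).bddAbove
    exact ⟨C, fun z hz h => hC ⟨z, ⟨hz, h⟩, rfl⟩⟩
  obtain ⟨C0, hC0⟩ := hshort F1 hF1
  have hC0' : ∀ y ∈ N, ∀ z ∈ L, Im ev T1 (y * value ev z) → z.length ≤ C0 := by
    intro y hy z hz him
    obtain ⟨μ, hμ, f, hf, h⟩ := hT1 _ him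
    refine hC0 z hz ⟨y⁻¹ * μ, N.mul_mem (N.inv_mem hy) hμ, f, hf, ?_⟩
    rw [mul_assoc, ← h]
    group
  have htl : ∀ z ∈ L, ∀ i, z.take i ∈ L := fun z hz i => h2.closed _ z hz (List.take_prefix _ _)
  -- good triples
  set Good : List A → List A → List A → Prop := fun w z1 z2 =>
    w ∈ T1 ∧ z1 ++ z2 ∈ L ∧ z1.length ≤ C0 ∧ value ev w * (value ev z1)⁻¹ ∈ N ∧
    ∀ i, z1.length < i → i ≤ (z1 ++ z2).length →
      ¬ Im ev T1 (value ev w * (value ev z1)⁻¹ * value ev ((z1 ++ z2).take i)) with hGood
  set T' : Language A := {v | v ∈ T1 ∨ ∃ w z1 z2, Good w z1 z2 ∧ v = w ++ z2} with hT'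
  have hval : ∀ w z1 z2 : List A, value ev (w ++ z2) =
      value ev w * (value ev z1)⁻¹ * value ev (z1 ++ z2) := by
    intro w z1 z2
    rw [value_append, value_append]
    group
  -- regularity
  have hfinQ : Set.Finite {κ : G ⧸ N | ∃ w ∈ T1, κ = ((value ev w : G) : G ⧸ N)} := by
    refine (hF1.image (fun f => ((f : G) : G ⧸ N))).subset ?_
    rintro _ ⟨w, hw, rfl⟩
    obtain ⟨μ, hμ, f, hf, h⟩ := hT1 _ ⟨w, hw, rfl⟩
    refine ⟨f, hf, ?_⟩
    simp only
    rw [h, QuotientGroup.mk_mul, (QuotientGroup.eq_one_iff μ).2 hμ, one_mul]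
  have hregN : Reg ev T1 (fun g => g ∈ N) := Reg_fin ev T1 h1 N hfinQ
  set P : List A → List A → G → Prop := fun z1 ζ x => x * (value ev z1)⁻¹ ∈ N ∧
    ∀ i : Fin (C0 + 1), z1.length < i → (i : ℕ) ≤ ζ.length →
      ¬ Im ev T1 (x * ((value ev z1)⁻¹ * value ev (ζ.take i))) with hP
  have hPreg : ∀ z1 ζ, Reg ev T1 (P z1 ζ) := by
    intro z1 ζ
    have h3 := Reg.bool (ev := ev) h1.regular (ι := Option (Fin (C0 + 1)))
      (fun z g => match z with
        | none => g * (value ev z1)⁻¹ ∈ N
        | some i => Im ev T1 (g * ((value ev z1)⁻¹ * value ev (ζ.take i))))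
      (by
        rintro (_ | i)
        · exact hregN.shift _
        · exact (Reg_Im ev T1 h1.mult).shift _)
      (fun p => p none ∧ ∀ i : Fin (C0 + 1), z1.length < i → (i : ℕ) ≤ ζ.length → ¬ p (some i))
    exact h3
  have hgoodP : ∀ w z1 z2, Good w z1 z2 ↔ w ∈ T1 ∧ z1 ++ z2 ∈ L ∧ z1.length ≤ C0 ∧
      P z1 ((z1 ++ z2).take C0) (value ev w) := by
    intro w z1 z2
    constructor
    · rintro ⟨a1, a2, a3, a4, a5⟩
      refine ⟨a1, a2, a3, a4, ?_⟩
      intro i hi hi' him
      rw [List.length_take] at hi'
      refine a5 i hi (by omega) ?_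
      rw [List.take_take, min_eq_left (by omega : (i : ℕ) ≤ C0), ← mul_assoc] at him
      exact him
    · rintro ⟨a1, a2, a3, a4, a5⟩
      refine ⟨a1, a2, a3, a4, ?_⟩
      intro i hi hi' him
      have hle := hC0' _ a4 _ (htl _ a2 i) him
      rw [List.length_take] at hle
      have hi2 : i ≤ C0 := by omega
      refine a5 ⟨i, by omega⟩ hi ?_ ?_
      · rw [List.length_take]
        simp only
        omega
      · simp only
        rw [List.take_take, min_eq_left hi2, ← mul_assoc]
        exact him
  have hreg : T'.IsRegular := by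
    have : Finite {s : List A // s.length ≤ C0} := List.finite_length_le A C0
    refine isRegular_bool (ι := Option ({s : List A // s.length ≤ C0} ×
      {s : List A // s.length ≤ C0}))
      (fun z => match z with
        | none => T1
        | some p => {v | ∃ w ∈ ({w | w ∈ T1 ∧ P p.1.1 p.2.1 (value ev w * 1)} : Language A),
            ∃ t ∈ ({t | p.1.1 ++ t ∈ L ∧ (p.1.1 ++ t).take C0 ∈ ({p.2.1} : Set (List A))} :
              Language A), v = w ++ t}) ?_ (fun p => ∃ i, p i) T' ?_
    · rintro (_ | p)
      · exact h1.regular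
      · refine isRegular_concat (hPreg p.1.1 p.2.1 1) ?_ _ (fun v => Iff.rfl)
        have hA : Language.IsRegular (T := A) {t | (p.1.1 ++ t).take C0 ∈ ({p.2.1} : Set (List A))} := by
          have hB : Language.IsRegular (T := A) {t | t.take C0 ∈ ({p.2.1} : Set (List A))} :=
            isRegular_take C0 _ _ (fun v => Iff.rfl)
          exact isRegular_left hB p.1.1 _ (fun v => Iff.rfl)
        have hB : Language.IsRegular (T := A) {t | p.1.1 ++ t ∈ L} :=
          isRegular_left h2.regular p.1.1 _ (fun v => Iff.rfl)
        exact isRegular_and hB hA _ (fun v => Iff.rfl)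
    · intro v
      constructor
      · rintro (hv | ⟨w, z1, z2, hg, rfl⟩)
        · exact ⟨none, hv⟩
        · obtain ⟨a1, a2, a3, a4⟩ := (hgoodP w z1 z2).1 hg
          refine ⟨some (⟨z1, a3⟩, ⟨(z1 ++ z2).take C0, List.length_take_le _ _⟩), w,
            ⟨a1, ?_⟩, z2, ⟨a2, rfl⟩, rfl⟩
          rw [mul_one]
          exact a4
      · rintro ⟨_ | p, hv⟩
        · exact Or.inl hv
        · obtain ⟨w, ⟨hw, hf⟩, t, ⟨ht, ht'⟩, rfl⟩ := hv
          rw [mul_one] at hf
          have ht2 : (p.1.1 ++ t).take C0 = p.2.1 := ht'
          refine Or.inr ⟨w, p.1.1, t, (hgoodP _ _ _).2 ⟨hw, ht, p.1.2, ?_⟩, rfl⟩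
          rw [ht2]
          exact hf
  have hclosed : PrefixClosed T' := by
    rintro u v hv huv
    rcases hv with hv | ⟨w, z1, z2, ⟨a1, a2, a3, a4, a5⟩, rfl⟩
    · exact Or.inl (h1.closed u v hv huv)
    · rw [List.prefix_iff_eq_take.1 huv, List.take_append]
      by_cases hk : u.length ≤ w.length
      · left
        rw [Nat.sub_eq_zero_of_le hk, List.take_zero, List.append_nil]
        exact h1.closed _ w a1 (List.take_prefix _ _)
      · right
        rw [List.take_of_length_le (by omega)]
        refine ⟨w, z1, z2.take (u.length - w.length), ⟨a1, ?_, a3, a4, ?_⟩, rfl⟩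
        · have := htl _ a2 (z1.length + (u.length - w.length))
          rwa [List.take_length_add_append] at this
        · intro i hi hi'
          have h3 := a5 i hi (by
            simp only [List.length_append, List.length_take] at hi' ⊢
            omega)
          have h4 : (z1 ++ z2.take (u.length - w.length)).take i = (z1 ++ z2).take i := by
            rw [List.take_append, List.take_append, List.take_take]
            congr 2
            simp only [List.length_append, List.length_take] at hi'
            omega
          rwa [h4]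
  have hmix : ∀ (w0 w z1 z2 : List A), w0 ∈ T1 → Good w z1 z2 →
      value ev w0 = value ev (w ++ z2) → w0 = w ++ z2 := by
    rintro w0 w z1 z2 hw0 ⟨a1, a2, a3, a4, a5⟩ hv
    rcases Nat.eq_zero_or_pos z2.length with hn | hn
    · have hz2 : z2 = [] := List.length_eq_zero_iff.1 hn
      subst hz2
      rw [List.append_nil] at hv ⊢
      exact h1.inj w0 hw0 w a1 hv
    · exfalso
      rw [hval w z1 z2] at hv
      refine a5 (z1 ++ z2).length (by rw [List.length_append]; omega) le_rfl ?_
      rw [List.take_length]
      exact ⟨w0, hw0, hv⟩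
  have hinj : ∀ u ∈ T', ∀ v ∈ T', value ev u = value ev v → u = v := by
    rintro u (hu | ⟨w, z1, z2, hg, rfl⟩) v (hv | ⟨w', z1', z2', hg', rfl⟩) huv
    · exact h1.inj u hu v hv huv
    · exact hmix u w' z1' z2' hu hg' huv
    · exact (hmix v w z1 z2 hv hg huv.symm).symm
    · obtain ⟨a1, a2, a3, a4, a5⟩ := hg
      obtain ⟨b1, b2, b3, b4, b5⟩ := hg'
      rw [hval w z1 z2, hval w' z1' z2'] at huv
      set y := value ev w * (value ev z1)⁻¹ with hy
      set y' := value ev w' * (value ev z1')⁻¹ with hy'
      have hzz : z1 ++ z2 = z1' ++ z2' := by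
        refine hsec _ a2 _ b2 (y⁻¹ * y') (N.mul_mem (N.inv_mem a4) b4) ?_
        rw [mul_assoc, ← huv]
        group
      have hyy : y = y' := by
        rw [hzz] at huv
        exact mul_right_cancel huv
      have hlen : z1.length = z1'.length := by
        rcases lt_trichotomy z1.length z1'.length with h | h | h
        · exfalso
          refine a5 z1'.length h (by rw [hzz, List.length_append]; omega) ?_
          rw [hzz, List.take_left, hyy, hy']
          exact ⟨w', b1, by group⟩
        · exact h
        · exfalso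
          refine b5 z1.length h (by rw [← hzz, List.length_append]; omega) ?_
          rw [← hzz, List.take_left, ← hyy, hy]
          exact ⟨w, a1, by group⟩
      obtain ⟨hz1, hz2⟩ := List.append_inj hzz hlen
      subst hz1 hz2
      have hww : w = w' := h1.inj w a1 w' b1 (mul_right_cancel hyy)
      rw [hww]
  have hft : ∀ g : G, FT ev T' g := by
    intro g
    obtain ⟨C1, hC1⟩ := hshort (Set.image2 (fun f x => f * x) F1 {g, g⁻¹})
      (hF1.image2 _ (by simp))
    obtain ⟨D1, hD1, hD1'⟩ := FT_tails ev T1 h1.ft C1 g
    have hV := hbdd g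
    set V : Set G := {n : G | n ∈ N ∧ ∃ u ∈ L, ∃ v ∈ L, value ev u * g = n * value ev v} with hVdef
    have : Finite V := hV
    have : Finite {s : List A // s.length ≤ C0} := List.finite_length_le A C0
    set X : Set G := Set.range (fun p : {s : List A // s.length ≤ C0} ×
      {s : List A // s.length ≤ C0} × V =>
      (value ev p.1.1)⁻¹ * p.2.2 * value ev p.2.1.1) with hX
    have hXfin : X.Finite := Set.finite_range _
    choose FD hFD hFD' using h1.ft
    choose FL hFL hFL' using h2.ft
    set D2 : Set G := ⋃ x ∈ X, FD x with hD2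
    have hD2fin : D2.Finite := hXfin.biUnion (fun x _ => hFD x)
    set D2' : Set G := (fun x => x⁻¹) '' D2 with hD2'
    have hD2'fin : D2'.Finite := hD2fin.image _
    set C3 : ℕ := D2.ncard + D2'.ncard with hC3
    set Z : Set G := (value ev) '' {z : List A | z.length ≤ C0 + C3} with hZ
    have hZfin : Z.Finite := (List.finite_length_le A (C0 + C3)).image _
    set D3 : Set G := ⋃ n ∈ V, FL (g * n⁻¹) with hD3
    have hD3fin : D3.Finite := hV.biUnion (fun x _ => hFL _)
    set Zi : Set G := Z ∪ (fun x => x⁻¹) '' Z with hZi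
    have hZifin : Zi.Finite := hZfin.union (hZfin.image _)
    set D4 : Set G := Set.image2 (fun n x => n * x) V (Set.image2 (fun x y => x * y) D3 Zi)
      with hD4
    have hD4fin : D4.Finite := hV.image2 _ (hD3fin.image2 _ hZifin)
    refine ⟨D1 ∪ (D4 ∪ (Set.image2 (fun x y => x * y) D2 Z ∪
      Set.image2 (fun x y => x⁻¹ * y) Z D2)), hD1.union (hD4fin.union
      ((hD2fin.image2 _ hZfin).union (hZfin.image2 _ hD2fin))), ?_⟩
    rintro u (hu | ⟨w, z1, z2, hg, rfl⟩) v (hv | ⟨w', z1', z2', hg', rfl⟩) huv i
    · left
      have := hD1' u hu v hv [] [] (by simp) (by simp) (by simpa using huv) i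
      simpa using this
    · left
      obtain ⟨b1, b2, b3, b4, b5⟩ := hg'
      have hn' : z2'.length ≤ C1 := by
        have h3 : Im ev T1 (value ev w' * (value ev z1')⁻¹ * value ev (z1' ++ z2') * g⁻¹) := by
          refine ⟨u, hu, ?_⟩
          rw [← hval, ← huv]
          group
        obtain ⟨μ, hμ, f, hf, h4⟩ := hT1 _ h3
        have h5 := hC1 _ b2 ⟨(value ev w' * (value ev z1')⁻¹)⁻¹ * μ,
          N.mul_mem (N.inv_mem b4) hμ, f * g, ⟨f, hf, g, by simp, rfl⟩, by
            have h6 : μ * f * g = value ev w' * (value ev z1')⁻¹ * value ev (z1' ++ z2') := by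
              rw [← h4]
              group
            have h7 : (value ev w' * (value ev z1')⁻¹)⁻¹ * μ * (f * g) =
                (value ev w' * (value ev z1')⁻¹)⁻¹ * (μ * f * g) := by group
            rw [h7, h6]
            group⟩
        rw [List.length_append] at h5
        omega
      have := hD1' u hu w' b1 [] z2' (by simp) hn' (by simpa using huv) i
      simpa using this
    · left
      obtain ⟨a1, a2, a3, a4, a5⟩ := hg
      have hn : z2.length ≤ C1 := by
        have h3 : Im ev T1 (value ev w * (value ev z1)⁻¹ * value ev (z1 ++ z2) * g) := by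
          refine ⟨v, hv, ?_⟩
          rw [← hval, huv]
        obtain ⟨μ, hμ, f, hf, h4⟩ := hT1 _ h3
        have h5 := hC1 _ a2 ⟨(value ev w * (value ev z1)⁻¹)⁻¹ * μ,
          N.mul_mem (N.inv_mem a4) hμ, f * g⁻¹, ⟨f, hf, g⁻¹, by simp, rfl⟩, by
            have h6 : μ * f * g⁻¹ = value ev w * (value ev z1)⁻¹ * value ev (z1 ++ z2) := by
              rw [← h4]
              group
            have h7 : (value ev w * (value ev z1)⁻¹)⁻¹ * μ * (f * g⁻¹) =
                (value ev w * (value ev z1)⁻¹)⁻¹ * (μ * f * g⁻¹) := by group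
            rw [h7, h6]
            group⟩
        rw [List.length_append] at h5
        omega
      have := hD1' w a1 v hv z2 [] hn (by simp) (by simpa using huv) i
      simpa using this
    · right
      obtain ⟨a1, a2, a3, a4, a5⟩ := hg
      obtain ⟨b1, b2, b3, b4, b5⟩ := hg'
      rw [hval w z1 z2, hval w' z1' z2'] at huv
      set y := value ev w * (value ev z1)⁻¹ with hy
      set y' := value ev w' * (value ev z1')⁻¹ with hy'
      set n := y⁻¹ * y' with hn
      have hnN : n ∈ N := N.mul_mem (N.inv_mem a4) b4
      have hzz : value ev (z1 ++ z2) * g = n * value ev (z1' ++ z2') := by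
        have h3 : value ev (z1 ++ z2) * g = y⁻¹ * (y * value ev (z1 ++ z2) * g) := by group
        rw [h3, huv, hn]
        group
      have hnV : n ∈ V := ⟨hnN, _, a2, _, b2, hzz⟩
      have hzz2 : value ev (z1 ++ z2) * (g * n⁻¹) = value ev (z1' ++ z2') := by
        rw [← mul_assoc, hzz, hN n hnN]
        group
      have hx : value ev w * ((value ev z1)⁻¹ * n * value ev z1') = value ev w' := by
        rw [hn, hy, hy']
        group
      have hxX : (value ev z1)⁻¹ * n * value ev z1' ∈ X :=
        ⟨(⟨z1, a3⟩, ⟨z1', b3⟩, ⟨n, hnV⟩), rfl⟩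
      have hww : ∀ j, (value ev (w.take j))⁻¹ * value ev (w'.take j) ∈ D2 := fun j =>
        Set.mem_biUnion hxX (hFD' _ w a1 w' b1 hx j)
      have hlen1 := length_le_of_ft ev T1 h1 D2 hD2fin w w' b1 hww
      have hlen2 := length_le_of_ft ev T1 h1 D2' hD2'fin w' w a1 (by
        intro j
        exact ⟨_, hww j, by simp⟩)
      rw [List.take_append, List.take_append, value_append, value_append]
      by_cases c1 : i ≤ w.length
      · right
        left
        rw [Nat.sub_eq_zero_of_le c1, List.take_zero]
        refine ⟨_, hww i, _, ⟨z2'.take (i - w'.length), ?_, rfl⟩, ?_⟩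
        · change (z2'.take (i - w'.length)).length ≤ C0 + C3
          rw [List.length_take]
          omega
        · simp only [value, List.map_nil, List.prod_nil, mul_one]
          group
      · by_cases c2 : i ≤ w'.length
        · right
          right
          rw [Nat.sub_eq_zero_of_le c2, List.take_zero]
          refine ⟨_, ⟨z2.take (i - w.length), ?_, rfl⟩, _, hww i, ?_⟩
          · change (z2.take (i - w.length)).length ≤ C0 + C3
            rw [List.length_take]
            omega
          · simp only [value, List.map_nil, List.prod_nil, mul_one]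
            group
        · left
          rw [List.take_of_length_le (by omega : w.length ≤ i),
            List.take_of_length_le (by omega : w'.length ≤ i)]
          set k := z1.length + (i - w.length) with hk
          set k' := z1'.length + (i - w'.length) with hk'
          have e1 : value ev w * value ev (z2.take (i - w.length)) =
              y * value ev ((z1 ++ z2).take k) := by
            rw [hk, List.take_length_add_append, value_append, hy]
            group
          have e2 : value ev w' * value ev (z2'.take (i - w'.length)) =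
              y' * value ev ((z1' ++ z2').take k') := by
            rw [hk', List.take_length_add_append, value_append, hy']
            group
          have h3 := hFL' _ _ a2 _ b2 hzz2 k
          have h4 : (value ev ((z1' ++ z2').take k))⁻¹ * value ev ((z1' ++ z2').take k') ∈ Zi := by
            rcases Nat.le_total k k' with hkk | hkk
            · left
              refine ⟨((z1' ++ z2').take k').drop k, ?_, ?_⟩
              · change (((z1' ++ z2').take k').drop k).length ≤ C0 + C3
                rw [List.length_drop, List.length_take]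
                omega
              · have h5 : (z1' ++ z2').take k' =
                    (z1' ++ z2').take k ++ ((z1' ++ z2').take k').drop k := by
                  conv_lhs => rw [← List.take_append_drop k ((z1' ++ z2').take k')]
                  rw [List.take_take, min_eq_left hkk]
                conv_rhs => rw [h5, value_append]
                group
            · right
              refine ⟨_, ⟨((z1' ++ z2').take k).drop k', ?_, rfl⟩, ?_⟩
              · change (((z1' ++ z2').take k).drop k').length ≤ C0 + C3
                rw [List.length_drop, List.length_take]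
                omega
              · have h5 : (z1' ++ z2').take k =
                    (z1' ++ z2').take k' ++ ((z1' ++ z2').take k).drop k' := by
                  conv_lhs => rw [← List.take_append_drop k' ((z1' ++ z2').take k)]
                  rw [List.take_take, min_eq_left hkk]
                conv_rhs => rw [h5, value_append]
                simp only
                group
          rw [e1, e2]
          refine ⟨n, hnV, _, ⟨_, Set.mem_biUnion hnV h3, _, h4, rfl⟩, ?_⟩
          simp only
          have h5 : (y * value ev ((z1 ++ z2).take k))⁻¹ * (y' * value ev ((z1' ++ z2').take k')) =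
              (value ev ((z1 ++ z2).take k))⁻¹ * n * value ev ((z1' ++ z2').take k') := by
            rw [hn]
            group
          rw [h5, ← hN n hnN]
          group
  refine ⟨T', ⟨hreg, hclosed, hinj, hft⟩, ?_⟩
  intro g
  obtain ⟨y, hy, z, hz, rfl⟩ := honto g
  set l := Nat.findGreatest (fun j => Im ev T1 (y * value ev (z.take j))) z.length with hl
  have hl0 : Im ev T1 (y * value ev (z.take l)) :=
    Nat.findGreatest_spec (P := fun j => Im ev T1 (y * value ev (z.take j))) (Nat.zero_le _)
      (by simpa [value] using hNT y hy)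
  have hll : l ≤ z.length := Nat.findGreatest_le _
  have hlC := hC0' y hy _ (htl z hz l) hl0
  obtain ⟨w, hw, hwv⟩ := hl0
  have hy2 : value ev w * (value ev (z.take l))⁻¹ = y := by
    rw [hwv]
    group
  refine ⟨w ++ z.drop l, Or.inr ⟨w, z.take l, z.drop l, ⟨hw, ?_, hlC, ?_, ?_⟩, rfl⟩, ?_⟩
  · rw [List.take_append_drop]
    exact hz
  · rw [hy2]
    exact hy
  · rw [hy2, List.take_append_drop]
    intro i hi hi' him
    rw [List.length_take] at hi
    exact Nat.findGreatest_is_greatest (P := fun j => Im ev T1 (y * value ev (z.take j)))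
      (by omega : l < i) hi' him
  · rw [hval w (z.take l), hy2, List.take_append_drop]

end Pool.Agent.H47.VC
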