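import Pool.Agent.H47.VC.Main

/-!
# The kernel is finitely generated when the section is bounded
-/

namespace Pool.Agent.H47.VC

open Pool.Agent.H47.CD Pool.Agent.H47.VA

universe u v w

theorem fg_of_bounded {G : Type u} [Group G] {Q : Type w} [Group Q] (φ : G →* Q)
    (hc : ∀ x ∈ φ.ker, ∀ g : G, x * g = g * x)
    {A : Type v} [Finite A] (ev : A → G) (hgen : Submonoid.closure (Set.range ev) = ⊤)
    (L : Language A) (honto : ∀ q : Q, ∃ w ∈ L, value (fun a => φ (ev a)) w = q)
    (huniq : Uniqueness (fun a => φ (ev a)) L)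
    (hbdd : ∀ g : G, Set.Finite {n : G | n ∈ φ.ker ∧ ∃ u ∈ L, ∃ v ∈ L,
      value ev u * g = n * value ev v}) : φ.ker.FG := by
  classical
  set S : Set G := ⋃ a : A, {n : G | n ∈ φ.ker ∧ ∃ u ∈ L, ∃ v ∈ L,
    value ev u * ev a = n * value ev v} with hS
  have hSfin : S.Finite := Set.finite_iUnion (fun a => hbdd (ev a))
  have hSN : S ⊆ φ.ker := by
    intro n hn
    obtain ⟨a, ha⟩ := Set.mem_iUnion.1 hn
    exact ha.1
  have key : ∀ z : List A, ∀ u ∈ L, ∃ n ∈ Subgroup.closure S, ∃ v ∈ L,
      value ev u * value ev z = n * value ev v := by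
    intro z
    induction z with
    | nil =>
      intro u hu
      exact ⟨1, Subgroup.one_mem _, u, hu, by simp [value]⟩
    | cons a z ih =>
      intro u hu
      obtain ⟨v1, hv1, hv1'⟩ := honto (φ (value ev u * ev a))
      rw [value_hom] at hv1'
      obtain ⟨n, hn, v, hv, h1⟩ := ih v1 hv1
      have hn1 : value ev u * ev a * (value ev v1)⁻¹ ∈ S := by
        refine Set.mem_iUnion.2 ⟨a, ?_, u, hu, v1, hv1, by group⟩
        rw [MonoidHom.mem_ker, map_mul, map_inv, hv1', mul_inv_cancel]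
      refine ⟨value ev u * ev a * (value ev v1)⁻¹ * n,
        Subgroup.mul_mem _ (Subgroup.subset_closure hn1) hn, v, hv, ?_⟩
      have h2 : value ev (a :: z) = ev a * value ev z := by simp [value]
      rw [h2, mul_assoc _ n, ← h1]
      group
  refine ⟨hSfin.toFinset, ?_⟩
  rw [Set.Finite.coe_toFinset]
  apply le_antisymm
  · rw [Subgroup.closure_le]
    exact hSN
  · intro x hx
    obtain ⟨z, hz⟩ := exists_word ev hgen x
    obtain ⟨u0, hu0, hu0'⟩ := honto 1
    rw [value_hom] at hu0'
    obtain ⟨n, hn, v, hv, h1⟩ := key z u0 hu0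
    have hnN : n ∈ φ.ker := (Subgroup.closure_le φ.ker).2 hSN hn
    have hvu : v = u0 := by
      refine (huniq 1).unique ⟨hv, ?_⟩ ⟨hu0, by rw [value_hom, hu0']⟩
      rw [value_hom]
      have h2 := congrArg φ h1
      rw [map_mul, map_mul, hu0', hz, (MonoidHom.mem_ker).1 hx, (MonoidHom.mem_ker).1 hnN,
        one_mul, one_mul] at h2
      exact h2.symm
    rw [hvu, hz, ← hc x hx] at h1
    rw [mul_right_cancel h1]
    exact hn

/-- A section that is bounded for the letters is bounded for all elements. -/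
theorem bounded_all {G : Type u} [Group G] {Q : Type w} [Group Q] (φ : G →* Q)
    {A : Type v} (ev : A → G) (hgen : Submonoid.closure (Set.range ev) = ⊤)
    (L : Language A) (honto : ∀ q : Q, ∃ w ∈ L, value (fun a => φ (ev a)) w = q)
    (huniq : Uniqueness (fun a => φ (ev a)) L)
    (hbdd : ∀ a : A, Set.Finite {n : G | n ∈ φ.ker ∧ ∃ u ∈ L, ∃ v ∈ L,
      value ev u * ev a = n * value ev v}) (g : G) :
    Set.Finite {n : G | n ∈ φ.ker ∧ ∃ u ∈ L, ∃ v ∈ L, value ev u * g = n * value ev v} := by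
  classical
  obtain ⟨z, rfl⟩ := exists_word ev hgen g
  induction z with
  | nil =>
    refine (Set.finite_singleton (1 : G)).subset ?_
    rintro n ⟨hn, u, hu, v, hv, h⟩
    have h1 : value ev u = n * value ev v := by simpa [value] using h
    have h2 : u = v := by
      refine (huniq (φ (value ev v))).unique ⟨hu, ?_⟩ ⟨hv, by rw [value_hom]⟩
      rw [value_hom, h1, map_mul, (MonoidHom.mem_ker).1 hn, one_mul]
    rw [h2] at h1
    exact (right_eq_mul.1 h1)
  | cons a z ih =>
    refine ((hbdd a).image2 (fun x y => x * y) ih).subset ?_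
    rintro n ⟨hn, u, hu, v, hv, h⟩
    obtain ⟨v1, hv1, hv1'⟩ := honto (φ (value ev u * ev a))
    rw [value_hom] at hv1'
    have hn1 : value ev u * ev a * (value ev v1)⁻¹ ∈ φ.ker := by
      rw [MonoidHom.mem_ker, map_mul, map_inv, hv1', mul_inv_cancel]
    refine ⟨value ev u * ev a * (value ev v1)⁻¹, ⟨hn1, u, hu, v1, hv1, by group⟩,
      (value ev u * ev a * (value ev v1)⁻¹)⁻¹ * n,
      ⟨φ.ker.mul_mem (φ.ker.inv_mem hn1) hn, v1, hv1, v, hv, ?_⟩, by group⟩
    have h2 : value ev (a :: z) = ev a * value ev z := by simp [value]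
    rw [h2] at h
    rw [mul_assoc _ n, ← h]
    group

theorem central_bounded {G : Type u} [Group G] {Q : Type w} [Group Q] (φ : G →* Q)
    (hc : ∀ x ∈ φ.ker, ∀ g : G, x * g = g * x)
    {A : Type v} [Finite A] (ev : A → G) (hgen : Submonoid.closure (Set.range ev) = ⊤)
    (L : Language A) (hL : IsAutomaticStructure (fun a => φ (ev a)) L) (hpre : PrefixClosed L)
    (huniq : Uniqueness (fun a => φ (ev a)) L)
    (hbdd : ∀ a : A, Set.Finite {n : G | n ∈ φ.ker ∧ ∃ u ∈ L, ∃ v ∈ L,
      value ev u * ev a = n * value ev v}) :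
    ∃ T : Language A, IsAutomaticStructure ev T ∧ PrefixClosed T ∧ Uniqueness ev T := by
  have hall := bounded_all φ ev hgen L hL.onto huniq hbdd
  exact central φ hc (fg_of_bounded φ hc ev hgen L hL.onto huniq hall) ev hgen L hL hpre huniq
    hall

end Pool.Agent.H47.VC
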