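import Pool.Agent.H47.VC.Attach

/-!
# Central extensions with a bounded section
-/

namespace Pool.Agent.H47.VC

open Pool.Agent.H47.CD Pool.Agent.H47.VA

universe u v w

theorem sep_central {G : Type u} [Group G] (N : Subgroup G) (hc : ∀ x ∈ N, ∀ g : G, x * g = g * x)
    (hfg : N.FG) : Sep N := by
  let _ : CommGroup N := { (inferInstance : Group N) with
    mul_comm := fun x y => Subtype.ext (hc x x.2 y) }
  have hfgN : Group.FG N := (Group.fg_iff_subgroup_fg N).2 hfg
  have := rf_of_fg N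
  intro E hE
  have hmain : ∃ L : Subgroup N, L.FiniteIndex ∧ ∀ e ∈ E, ∀ he : e ∈ N,
      (⟨e, he⟩ : N) ∈ L → e = 1 := by
    induction E, hE using Set.Finite.induction_on with
    | empty => exact ⟨⊤, inferInstance, fun e he => he.elim⟩
    | @insert a S ha hS ih =>
      obtain ⟨L, hL1, hL2⟩ := ih
      by_cases haN : ∃ h : a ∈ N, a ≠ 1
      · obtain ⟨haN, ha1⟩ := haN
        obtain ⟨H, hH⟩ := Group.exists_finiteIndexNormalSubgroup_notMem (⟨a, haN⟩ : N)
          (fun h => ha1 (congrArg Subtype.val h))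
        have hf : H.toSubgroup.FiniteIndex := inferInstance
        refine ⟨L ⊓ H.toSubgroup, inferInstance, ?_⟩
        intro e he heN heL
        rcases he with rfl | he
        · exact absurd heL.2 hH
        · exact hL2 e he heN heL.1
      · refine ⟨L, hL1, ?_⟩
        intro e he heN heL
        rcases he with rfl | he
        · by_contra hne
          exact haN ⟨heN, hne⟩
        · exact hL2 e he heN heL
  obtain ⟨L, hL1, hL2⟩ := hmain
  have hfinq : Finite (N ⧸ L) := Subgroup.finite_quotient_of_finiteIndex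
  have hLN : L.map N.subtype ≤ N := by
    rintro _ ⟨x, -, rfl⟩
    exact x.2
  refine ⟨L.map N.subtype, ⟨?_⟩, ⟨Set.range (fun κ : N ⧸ L => ((κ.out : N) : G)),
    Set.finite_range _, ?_⟩, hLN, ?_⟩
  · intro n hn g
    have h1 : g * n * g⁻¹ = n := by
      rw [← hc n (hLN hn) g]
      group
    rwa [h1]
  · intro ν hν
    refine ⟨_, ⟨((⟨ν, hν⟩ : N) : N ⧸ L), rfl⟩, ?_⟩
    have h1 : (((((⟨ν, hν⟩ : N) : N ⧸ L)).out : N) : N ⧸ L) = ((⟨ν, hν⟩ : N) : N ⧸ L) :=
      Quotient.out_eq' _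
    have h2 := QuotientGroup.eq.1 h1
    refine ⟨_, h2, ?_⟩
    simp only [Subgroup.coe_subtype, Subgroup.coe_mul, Subgroup.coe_inv]
    exact (hc ν hν _).symm
  · rintro e he ⟨x, hx, hxe⟩
    have heN : e ∈ N := hxe ▸ x.2
    refine hL2 e he heN ?_
    have : (⟨e, heN⟩ : N) = x := Subtype.ext hxe.symm
    rwa [this]

theorem central {G : Type u} [Group G] {Q : Type w} [Group Q] (φ : G →* Q)
    (hc : ∀ x ∈ φ.ker, ∀ g : G, x * g = g * x) (hfg : φ.ker.FG)
    {A : Type v} [Finite A] (ev : A → G) (hgen : Submonoid.closure (Set.range ev) = ⊤)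
    (L : Language A) (hL : IsAutomaticStructure (fun a => φ (ev a)) L) (hpre : PrefixClosed L)
    (huniq : Uniqueness (fun a => φ (ev a)) L)
    (hbdd : ∀ g : G, Set.Finite {n : G | n ∈ φ.ker ∧ ∃ u ∈ L, ∃ v ∈ L,
      value ev u * g = n * value ev v}) :
    ∃ T : Language A, IsAutomaticStructure ev T ∧ PrefixClosed T ∧ Uniqueness ev T := by
  classical
  have hsec : ∀ u ∈ L, ∀ v ∈ L, ∀ n ∈ φ.ker, value ev u = n * value ev v → u = v := by
    intro u hu v hv n hn h
    refine (huniq (φ (value ev v))).unique ⟨hu, ?_⟩ ⟨hv, ?_⟩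
    · rw [value_hom, h, map_mul, (MonoidHom.mem_ker).1 hn, one_mul]
    · rw [value_hom]
  have hLT : Tree ev L := by
    refine ⟨hL.regular, hpre, ?_, ?_⟩
    · intro u hu v hv h
      exact hsec u hu v hv 1 φ.ker.one_mem (by rw [h, one_mul])
    · intro g
      obtain ⟨D, hD, hD'⟩ := FT_all (fun a => φ (ev a)) L hL (φ g)
      have hlift : ∀ q : Q, ∃ x : G, (∃ y, φ y = q) → φ x = q := by
        intro q
        by_cases h : ∃ y, φ y = q
        · obtain ⟨y, hy⟩ := h
          exact ⟨y, fun _ => hy⟩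
        · exact ⟨1, fun h' => absurd h' h⟩
      choose lift hlift using hlift
      refine ⟨⋃ q ∈ D, (fun n => lift q * n⁻¹) '' {n : G | n ∈ φ.ker ∧ ∃ u ∈ L, ∃ v ∈ L,
        value ev u * lift q = n * value ev v},
        hD.biUnion (fun q _ => (hbdd (lift q)).image _), ?_⟩
      intro u hu v hv huv i
      have h1 := hD' u hu v hv (by rw [value_hom, value_hom, ← huv, map_mul]) i
      rw [value_hom, value_hom, ← map_inv, ← map_mul] at h1
      set δ := (value ev (u.take i))⁻¹ * value ev (v.take i) with hδ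
      have h2 : φ (lift (φ δ)) = φ δ := hlift _ ⟨δ, rfl⟩
      set n := δ⁻¹ * lift (φ δ) with hn
      have hnN : n ∈ φ.ker := by
        rw [MonoidHom.mem_ker, hn, map_mul, map_inv, h2, inv_mul_cancel]
      have hδn : δ = lift (φ δ) * n⁻¹ := by
        rw [hn]
        group
      refine Set.mem_biUnion h1 ⟨n, ⟨hnN, u.take i, hpre _ u hu (List.take_prefix _ _),
        v.take i, hpre _ v hv (List.take_prefix _ _), ?_⟩, hδn.symm⟩
      have h3 : value ev (u.take i) * lift (φ δ) = value ev (u.take i) * δ * n := by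
        rw [hn]
        group
      rw [h3, hδ, ← hc n hnN]
      group
  have hsep := sep_central φ.ker hc hfg
  obtain ⟨S, hS⟩ := hfg
  have hSN : ∀ x ∈ S, x ∈ φ.ker := by
    intro x hx
    rw [← hS]
    exact Subgroup.subset_closure hx
  obtain ⟨M, hMN, hlM, T0, hT0, hA⟩ := tree_list' ev hgen φ.ker
    (fun x hx y _ => hc x hx y) hsep S.toList (by simpa using hSN)
  have hNM : φ.ker ≤ M := by
    rw [← hS, Subgroup.closure_le]
    intro x hx
    exact hlM x (by simpa using hx)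
  obtain ⟨F, hF, hF'⟩ := hA.cover
  obtain ⟨Fs, hFs, hFs'⟩ := hA.sub
  obtain ⟨K, hK⟩ := exists_bound ev hgen F hF
  obtain ⟨T1, hT1, -, hIm⟩ := thicken ev T0 hT0 K
  have hNT : ∀ x ∈ φ.ker, Im ev T1 x := by
    intro x hx
    obtain ⟨s, hs, f, hf, h1⟩ := hF' x (hNM hx)
    obtain ⟨z, hz, hz'⟩ := hK f hf
    rw [hIm]
    refine ⟨z, hz, ?_⟩
    rw [hz', h1]
    have : s * f * f⁻¹ = s := by group
    rwa [this]
  set Z : Set G := (value ev) '' {z : List A | z.length ≤ K} with hZ
  have hZfin : Z.Finite := (List.finite_length_le A K).image _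
  obtain ⟨T', hT', hT'im⟩ := attach ev φ.ker hc T1 L hT1 hNT
    (Set.image2 (fun f z => f * z) Fs Z) (hFs.image2 _ hZfin)
    (by
      intro g hg
      rw [hIm] at hg
      obtain ⟨z, hz, hz'⟩ := hg
      obtain ⟨μ, hμ, f, hf, h1⟩ := hFs' _ hz'
      refine ⟨μ, hMN hμ, f * value ev z, ⟨f, hf, _, ⟨z, hz, rfl⟩, rfl⟩, ?_⟩
      rw [← mul_assoc, ← h1]
      group)
    hLT hsec
    (by
      intro g
      obtain ⟨z, hz, hzg⟩ := hL.onto (φ g)
      rw [value_hom] at hzg
      refine ⟨g * (value ev z)⁻¹, ?_, z, hz, by group⟩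
      rw [MonoidHom.mem_ker, map_mul, map_inv, hzg, mul_inv_cancel])
    hbdd
  refine ⟨T', automatic_of_FT ev T' hgen hT'.regular ?_ hT'.ft, hT'.closed, ?_⟩
  · intro g
    exact hT'im g
  · intro g
    obtain ⟨w, hw, hwg⟩ := hT'im g
    exact ⟨w, ⟨hw, hwg⟩, fun v hv => hT'.inj v hv.1 w hw (hv.2.trans hwg.symm)⟩

end Pool.Agent.H47.VC
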