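import Pool.Agent.H47.VA.Main

/-!
# Abelian normal subgroups of infinite index

The same as `Pool/Agent/H47/VA/Stage.lean` and `Main.lean`, without finite index of `N` in `G`.
-/

namespace Pool.Agent.H47.VC

open Pool.Agent.H47.CD Pool.Agent.H47.VA

universe u v w

variable {G : Type u} [Group G] {A : Type v}

/-- separation: there are normal subgroups of `G` in `N`, of finite index in `N`, avoiding any
given finite set without the neutral element -/
def Sep (N : Subgroup G) : Prop := ∀ E : Set G, E.Finite →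
  ∃ L : Subgroup G, L.Normal ∧ (∃ R : Set G, R.Finite ∧ ∀ ν ∈ N, ∃ r ∈ R, ν * r⁻¹ ∈ L) ∧
    L ≤ N ∧ ∀ e ∈ E, e ∈ L → e = 1

/-- Membership in a normal subgroup is recognised along a tree that meets finitely many cosets. -/
theorem Reg_fin (ev : A → G) (T : Language A) (hT : Tree ev T) (L : Subgroup G) [hL : L.Normal]
    (hf : Set.Finite {κ : G ⧸ L | ∃ w ∈ T, κ = ((value ev w : G) : G ⧸ L)}) :
    Reg ev T (fun g => g ∈ L) := by
  classical
  intro h
  set Q : Set (G ⧸ L) := {κ : G ⧸ L | ∃ w ∈ T, κ = ((value ev w : G) : G ⧸ L)} with hQ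
  have : Finite Q := hf
  by_cases hemp : ∃ w, w ∈ T
  · obtain ⟨w0, hw0⟩ := hemp
    have hnil : [] ∈ T := hT.closed [] w0 hw0 (List.nil_prefix)
    have h1 : (1 : G ⧸ L) ∈ Q := ⟨[], hnil, by simp [value]⟩
    set st : Option Q → A → Option Q := fun s a => s.bind (fun κ =>
      if hk : (κ : G ⧸ L) * ((ev a : G) : G ⧸ L) ∈ Q then some ⟨_, hk⟩ else none) with hst
    have h2 : Language.IsRegular (T := A)
        {w | ∃ κ : Q, w.foldl st (some ⟨1, h1⟩) = some κ ∧ (κ : G ⧸ L) * ((h : G) : G ⧸ L) = 1} :=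
      isRegular_of_fold st (some ⟨1, h1⟩)
        {s | ∃ κ : Q, s = some κ ∧ (κ : G ⧸ L) * ((h : G) : G ⧸ L) = 1} _ (fun w => Iff.rfl)
    have key : ∀ w ∈ T, ∃ hk : ((value ev w : G) : G ⧸ L) ∈ Q,
        w.foldl st (some ⟨1, h1⟩) = some ⟨_, hk⟩ := by
      intro w
      induction w using List.reverseRecOn with
      | nil =>
        intro _
        refine ⟨⟨[], hnil, rfl⟩, ?_⟩
        congr 1
      | append_singleton w a ih =>
        intro hw
        obtain ⟨hk, hk'⟩ := ih (hT.closed _ _ hw (List.prefix_append w [a]))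
        have hv : ((value ev (w ++ [a]) : G) : G ⧸ L) =
            ((value ev w : G) : G ⧸ L) * ((ev a : G) : G ⧸ L) := by
          rw [value_snoc, QuotientGroup.mk_mul]
        have hk2 : ((value ev (w ++ [a]) : G) : G ⧸ L) ∈ Q := ⟨_, hw, rfl⟩
        refine ⟨hk2, ?_⟩
        rw [List.foldl_append, hk']
        have hk3 : ((value ev w : G) : G ⧸ L) * ((ev a : G) : G ⧸ L) ∈ Q := hv ▸ hk2
        change (if hk : ((value ev w : G) : G ⧸ L) * ((ev a : G) : G ⧸ L) ∈ Q then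
          some (⟨_, hk⟩ : Q) else none) = _
        rw [dif_pos hk3]
        congr 1
        exact Subtype.ext hv.symm
    refine isRegular_and hT.regular h2 _ ?_
    intro w
    constructor
    · rintro ⟨hw, hwL⟩
      obtain ⟨hk, hk'⟩ := key w hw
      refine ⟨hw, ⟨_, hk⟩, hk', ?_⟩
      rw [← QuotientGroup.mk_mul, QuotientGroup.eq_one_iff]
      exact hwL
    · rintro ⟨hw, κ, hκ, hκ'⟩
      obtain ⟨hk, hk'⟩ := key w hw
      rw [hk'] at hκ
      have h3 : (⟨_, hk⟩ : Q) = κ := Option.some.inj hκ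
      rw [← h3, ← QuotientGroup.mk_mul, QuotientGroup.eq_one_iff] at hκ'
      exact ⟨hw, hκ'⟩
  · refine isRegular_and hT.regular hT.regular _ ?_
    intro w
    exact ⟨fun hw => absurd ⟨w, hw.1⟩ hemp, fun hw => absurd ⟨w, hw.1⟩ hemp⟩

/-- Rays in the direction `t` over the tree `T1`, added to the bigger tree `T2` all of whose
elements are at levels at most `0`. -/
theorem addRays' [Finite A] (ev : A → G) {N M : Subgroup G} [hNn : N.Normal] {t : G} {c : ℕ → A}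
    {m d : ℕ} {q : G} (hx : Ctx ev N M t c m d q)
    (hsep : Sep N)
    (T1 T2 : Language A) (h1 : Tree ev T1) (h2 : Tree ev T2) (h12 : ∀ w ∈ T1, w ∈ T2)
    (F1 F2 : Set G) (hF1 : F1.Finite) (hF2 : F2.Finite)
    (hT1 : ∀ g, Im ev T1 g → ∃ μ ∈ M, ∃ f ∈ F1, g = μ * f)
    (hT2 : ∀ g, Im ev T2 g → ∃ k : ℤ, k ≤ 0 ∧ Lev M t F2 k g)
    (hq : ∀ μ ∈ M, Im ev T1 (μ * q)) :
    ∃ T3 : Language A, Tree ev T3 ∧ (∀ w ∈ T2, w ∈ T3) ∧
      (∃ F3 : Set G, F3.Finite ∧ ∀ g, Im ev T3 g → Im ev T2 g ∨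
        ∃ k : ℤ, 0 ≤ k ∧ Lev M t F3 k g) ∧
      ∃ F4 : Set G, F4.Finite ∧ ∀ μ ∈ M, ∀ k : ℕ, ∃ s, Im ev T3 s ∧ ∃ f ∈ F4,
        μ * t ^ k = s * f := by
  classical
  have him12 : ∀ g, Im ev T1 g → Im ev T2 g := by
    rintro g ⟨w, hw, rfl⟩
    exact ⟨w, h12 w hw, rfl⟩
  set P : Set G := Set.range (fun r : Fin m => pos ev c r) with hP
  have hPfin : P.Finite := Set.finite_range _
  set F1' : Set G := Set.image2 (fun f r => f * r) F1 P with hF1'
  have hF1'fin : F1'.Finite := hF1.image2 _ hPfin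
  have hlev : ∀ y, Im ev T1 y → y * q⁻¹ ∈ N → ∀ i,
      Lev M t F1' ((d * (i / m) : ℕ) : ℤ) (y * pos ev c i) := by
    intro y hy hyN i
    obtain ⟨μ, hμ, f, hf, hyf⟩ := hT1 y hy
    exact ray_lev hx F1 y μ f hμ hf hyf hyN i
  set tq := pos ev c m with htq
  have htqN : tq ∈ N := by
    rw [htq, hx.dir]
    have := hNn.conj_mem _ (N.pow_mem hx.mem d) q⁻¹
    simpa using this
  have hyyN : ∀ y y', y * q⁻¹ ∈ N → y' * q⁻¹ ∈ N → y⁻¹ * y' ∈ N := by
    intro y y' hy hy'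
    have h3 := hNn.conj_mem _ (N.mul_mem (N.inv_mem hy) hy') q⁻¹
    have h4 : q⁻¹ * ((y * q⁻¹)⁻¹ * (y' * q⁻¹)) * q⁻¹⁻¹ = y⁻¹ * y' := by group
    rwa [h4] at h3
  have hdiv : ∀ a b B : ℕ, (((d * a : ℕ) : ℤ) - ((d * b : ℕ) : ℤ)).natAbs ≤ B →
      a ≤ b + B ∧ b ≤ a + B := by
    intro a b B hB
    have hd := hx.dpos
    constructor
    · by_contra hcon
      push Not at hcon
      have h3 : d * (b + B + 1) ≤ d * a := Nat.mul_le_mul_left d hcon
      have h4 : B + 1 ≤ d * (B + 1) := Nat.le_mul_of_pos_left _ hd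
      have h5 : d * (b + B + 1) = d * b + d * (B + 1) := by ring
      omega
    · by_contra hcon
      push Not at hcon
      have h3 : d * (a + B + 1) ≤ d * b := Nat.mul_le_mul_left d hcon
      have h4 : B + 1 ≤ d * (B + 1) := Nat.le_mul_of_pos_left _ hd
      have h5 : d * (a + B + 1) = d * a + d * (B + 1) := by ring
      omega
  have hidx : ∀ i i' B : ℕ, i / m ≤ i' / m + B → i ≤ i' + m * (B + 1) := by
    intro i i' B hB
    have h3 := Nat.div_add_mod i m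
    have h4 := Nat.div_add_mod i' m
    have h5 := Nat.mod_lt i hx.mpos
    have h6 : m * (i / m) ≤ m * (i' / m + B) := Nat.mul_le_mul_left m hB
    have h7 : m * (i' / m + B) = m * (i' / m) + m * B := by ring
    have h8 : m * (B + 1) = m * B + m := by ring
    omega
  -- parallel rays
  have hpar0 : ∀ h : G, ∃ (D : Set G) (C : ℕ), D.Finite ∧ ∀ y y' i i',
      Im ev T1 y → y * q⁻¹ ∈ N → Im ev T1 y' → y' * q⁻¹ ∈ N →
      y * pos ev c i * h = y' * pos ev c i' → y⁻¹ * y' ∈ D ∧ i ≤ i' + C ∧ i' ≤ i + C := by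
    intro h
    obtain ⟨B, hB⟩ := lev_bound N M hx.ab hx.le t hx.mem hx.ind F1' F1' hF1'fin hF1'fin h
    refine ⟨Set.range (fun p : Fin m × Fin m × Fin (2 * B + 1) =>
      pos ev c p.1 * h * (pos ev c p.2.1)⁻¹ * tq ^ ((p.2.2 : ℤ) - B)), m * (B + 1),
      Set.finite_range _, ?_⟩
    intro y y' i i' hy hyN hy' hy'N he
    have h3 := hB _ _ _ (hlev y hy hyN i) (he ▸ hlev y' hy' hy'N i')
    obtain ⟨h4, h5⟩ := hdiv _ _ _ h3
    refine ⟨?_, hidx _ _ _ h4, hidx _ _ _ h5⟩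
    refine ⟨(⟨i % m, Nat.mod_lt _ hx.mpos⟩, ⟨i' % m, Nat.mod_lt _ hx.mpos⟩,
      ⟨i / m + B - i' / m, by omega⟩), ?_⟩
    simp only
    have h6 : ((i / m + B - i' / m : ℕ) : ℤ) - B = (i / m : ℕ) - (i' / m : ℕ) := by
      push_cast [Nat.cast_sub h5]
      ring
    rw [h6]
    have e1 : pos ev c i = tq ^ (i / m) * pos ev c (i % m) := by
      rw [htq, ← pos_mul ev c m hx.per, Nat.div_add_mod]
    have e2 : pos ev c i' = tq ^ (i' / m) * pos ev c (i' % m) := by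
      rw [htq, ← pos_mul ev c m hx.per, Nat.div_add_mod]
    set z := pos ev c (i % m) * h * (pos ev c (i' % m))⁻¹ with hz
    have h7 : y⁻¹ * y' = tq ^ (i / m) * z * (tq ^ (i' / m))⁻¹ := by
      have h8 : y' = y * pos ev c i * h * (pos ev c i')⁻¹ := by
        rw [he]
        group
      rw [h8, e1, e2, hz]
      group
    have hzN : z ∈ N := by
      have h8 : z = (tq ^ (i / m))⁻¹ * (y⁻¹ * y') * tq ^ (i' / m) := by
        rw [h7]
        group
      rw [h8]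
      exact N.mul_mem (N.mul_mem (N.inv_mem (N.pow_mem htqN _)) (hyyN y y' hyN hy'N))
        (N.pow_mem htqN _)
    rw [h7, hx.ab _ (N.pow_mem htqN _) _ hzN, zpow_sub, zpow_natCast, zpow_natCast]
    exact (mul_assoc z _ _).symm
  obtain ⟨D1, C1, hD1, hDC1⟩ := hpar0 1
  obtain ⟨L, hLn, ⟨R, hR, hR'⟩, hLN, hL⟩ := hsep ((fun x => q * x * q⁻¹) '' D1) (hD1.image _)
  have hfinQ : Set.Finite {κ : G ⧸ L | ∃ w ∈ T2, κ = ((value ev w : G) : G ⧸ L)} := by
    refine ((hR.image2 (fun r f => ((r * f : G) : G ⧸ L)) hF2)).subset ?_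
    rintro _ ⟨w, hw, rfl⟩
    obtain ⟨k, -, μ, hμ, f, hf, h3⟩ := hT2 _ ⟨w, hw, rfl⟩
    obtain ⟨r, hr, hr'⟩ := hR' (μ * t ^ k) (N.mul_mem (hx.le hμ) (N.zpow_mem hx.mem _))
    refine ⟨r, hr, f, hf, ?_⟩
    simp only
    rw [h3, QuotientGroup.mk_mul, QuotientGroup.mk_mul]
    congr 1
    symm
    rw [← mul_inv_eq_one, ← QuotientGroup.mk_inv, ← QuotientGroup.mk_mul,
      QuotientGroup.eq_one_iff]
    exact hr'
  set Y : G → Prop := fun y => Im ev T1 y ∧ y * q⁻¹ ∈ L with hY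
  have hYreg : Reg ev T2 Y := by
    have h3 := Reg.bool (ev := ev) h2.regular (ι := Bool)
      (fun b g => match b with
        | true => Im ev T1 g
        | false => g * q⁻¹ ∈ L)
      (by
        rintro (_ | _)
        · exact (Reg_fin ev T2 h2 L hfinQ).shift q⁻¹
        · exact Reg_Im_sub ev T1 T2 h2 h1.regular h12)
      (fun p => p true ∧ p false)
    exact h3
  obtain ⟨T3, hT3, h23, hnew, C, hC⟩ := ray ev T2 h2 Y hYreg c m hx.mpos hx.per
    (fun y hy => him12 y hy.1)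
    (by
      intro h
      obtain ⟨B, hB⟩ := lev_bound N M hx.ab hx.le t hx.mem hx.ind F1' F2 hF1'fin hF2 h
      refine ⟨m * (B + 1), ?_⟩
      intro y hy i him
      obtain ⟨k, hk, hk'⟩ := hT2 _ him
      have h3 := hB _ _ _ (hlev y hy.1 (hLN hy.2) i) hk'
      have h4 := hdiv (i / m) 0 B (by
        rw [mul_zero]
        generalize d * (i / m) = X at h3 ⊢
        omega)
      have h5 := hidx i 0 B (by simpa using h4.1)
      omega)
    (by
      intro y y' i i' hy hy' he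
      obtain ⟨h3, -, -⟩ := hDC1 y y' i i' hy.1 (hLN hy.2) hy'.1 (hLN hy'.2) (by rwa [mul_one])
      have h4 : q * (y⁻¹ * y') * q⁻¹ ∈ L := by
        have h5 : q * (y⁻¹ * y') * q⁻¹ = (y * q⁻¹)⁻¹ * (y' * q⁻¹) := by group
        rw [h5]
        exact L.mul_mem (L.inv_mem hy.2) hy'.2
      have h5 := hL _ ⟨_, h3, rfl⟩ h4
      have h6 : y = y' := by
        rw [mul_inv_eq_one, mul_eq_left] at h5
        exact (inv_mul_eq_one.1 h5)
      refine ⟨h6, ?_⟩
      rw [h6] at he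
      exact hx.inj (mul_left_cancel he))
    (by
      intro h
      obtain ⟨D, C, hD, hDC⟩ := hpar0 h
      exact ⟨D, C, hD, fun y y' i i' hy hy' he =>
        hDC y y' i i' hy.1 (hLN hy.2) hy'.1 (hLN hy'.2) he⟩)
    (fun y y' hy hy' => hx.ab _ (hyyN y y' (hLN hy.2) (hLN hy'.2)) _ htqN)
  have him23 : ∀ g, Im ev T2 g → Im ev T3 g := by
    rintro g ⟨w, hw, rfl⟩
    exact ⟨w, h23 w hw, rfl⟩
  refine ⟨T3, hT3, h23, ⟨F1', hF1'fin, ?_⟩, ?_⟩
  · rintro g ⟨w, hw, rfl⟩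
    rcases hnew w hw with h3 | ⟨y, i, hy, h3⟩
    · exact Or.inl ⟨w, h3, rfl⟩
    · right
      rw [h3]
      exact ⟨_, by positivity, hlev y hy.1 (hLN hy.2) i⟩
  · -- coverage
    have : Finite R := hR
    have hrep : ∀ r : R, ∃ e ∈ M, (∃ μ ∈ M, μ * (r : G)⁻¹ ∈ L) → e * (r : G)⁻¹ ∈ L := by
      intro r
      by_cases hκ : ∃ μ ∈ M, μ * (r : G)⁻¹ ∈ L
      · obtain ⟨μ, hμ, h3⟩ := hκ
        exact ⟨μ, hμ, fun _ => h3⟩
      · exact ⟨1, M.one_mem, fun h => absurd h hκ⟩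
    choose e he he' using hrep
    refine ⟨Set.range (fun p : Fin (C + 1) × R × Fin d =>
      (pos ev c p.1 * q⁻¹ * e p.2.1 * t ^ (p.2.2 : ℕ))), Set.finite_range _, ?_⟩
    intro μ hμ k
    obtain ⟨r, hr, hr'⟩ := hR' μ (hx.le hμ)
    set ε := e ⟨r, hr⟩ with hε
    have hε1 : ε ∈ M := he _
    have hε2 : ε * r⁻¹ ∈ L := he' ⟨r, hr⟩ ⟨μ, hμ, hr'⟩
    set μ0 := μ * ε⁻¹ with hμ0
    have hμ0M : μ0 ∈ M := M.mul_mem hμ (M.inv_mem hε1)
    have hμ0L : μ0 ∈ L := by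
      have h3 : μ0 = (μ * r⁻¹) * (ε * r⁻¹)⁻¹ := by
        rw [hμ0]
        group
      rw [h3]
      exact L.mul_mem hr' (L.inv_mem hε2)
    have hy : Y (μ0 * q) := ⟨hq μ0 hμ0M, by simpa using hμ0L⟩
    have hk : k = d * (k / d) + k % d := (Nat.div_add_mod k d).symm
    have hrd : k % d < d := Nat.mod_lt _ hx.dpos
    have hεt : ε * t ^ (d * (k / d)) = t ^ (d * (k / d)) * ε :=
      hx.ab _ (hx.le hε1) _ (N.pow_mem hx.mem _)
    have hpt : μ0 * q * pos ev c (m * (k / d)) = μ0 * t ^ (d * (k / d)) * q := by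
      have h3 : pos ev c (m * (k / d)) = tq ^ (k / d) := by
        have := pos_mul ev c m hx.per (k / d) 0
        rw [add_zero, pos_zero, mul_one] at this
        exact this
      rw [h3, htq, pos_dir hx]
      group
    have hmain : μ * t ^ k = μ0 * q * pos ev c (m * (k / d)) * (q⁻¹ * ε * t ^ (k % d)) := by
      rw [hpt]
      conv_lhs => rw [hk, pow_add]
      calc μ * (t ^ (d * (k / d)) * t ^ (k % d))
          = μ0 * (ε * t ^ (d * (k / d))) * t ^ (k % d) := by rw [hμ0]; group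
        _ = μ0 * (t ^ (d * (k / d)) * ε) * t ^ (k % d) := by rw [hεt]
        _ = μ0 * t ^ (d * (k / d)) * q * (q⁻¹ * ε * t ^ (k % d)) := by group
    by_cases hbig : C < m * (k / d)
    · refine ⟨_, hC _ _ hy hbig, q⁻¹ * ε * t ^ (k % d), ?_, hmain⟩
      refine ⟨(⟨0, by omega⟩, ⟨r, hr⟩, ⟨k % d, hrd⟩), ?_⟩
      simp [hε]
    · refine ⟨μ0 * q, him23 _ (him12 _ hy.1), pos ev c (m * (k / d)) * q⁻¹ * ε * t ^ (k % d),
        ?_, ?_⟩
      · exact ⟨(⟨m * (k / d), by omega⟩, ⟨r, hr⟩, ⟨k % d, hrd⟩), rfl⟩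
      · rw [hmain]
        group


theorem stage' [Finite A] (ev : A → G) (hgen : Submonoid.closure (Set.range ev) = ⊤)
    (N M : Subgroup G) [hNn : N.Normal] (hab : ∀ x ∈ N, ∀ y ∈ N, x * y = y * x) (hMN : M ≤ N)
    (t : G) (ht : t ∈ N)
    (hsep : Sep N)
    (T : Language A) (hT : Tree ev T) (hA : Approx ev T M) :
    ∃ M' : Subgroup G, M ≤ M' ∧ t ∈ M' ∧ M' ≤ N ∧ ∃ T' : Language A, Tree ev T' ∧
      Approx ev T' M' := by
  classical
  have hM1 : M ≤ adj N M hab hMN t ht := fun μ hμ => ⟨μ, hμ, 0, by simp⟩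
  have hM2 : t ∈ adj N M hab hMN t ht := ⟨1, M.one_mem, 1, by simp⟩
  have hM3 : adj N M hab hMN t ht ≤ N := by
    rintro _ ⟨μ, hμ, k, rfl⟩
    exact N.mul_mem (hMN hμ) (N.zpow_mem ht _)
  refine ⟨adj N M hab hMN t ht, hM1, hM2, hM3, ?_⟩
  obtain ⟨Fs, hFs, hFs'⟩ := hA.sub
  obtain ⟨F0, hF0, hF0'⟩ := hA.cover
  by_cases hdep : ∃ k : ℤ, k ≠ 0 ∧ t ^ k ∈ M
  · obtain ⟨k, hk, hkM⟩ := hdep
    refine ⟨T, hT, ⟨Fs, hFs, ?_⟩, ?_⟩
    · intro g hg
      obtain ⟨μ, hμ, f, hf, h⟩ := hFs' g hg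
      exact ⟨μ, hM1 hμ, f, hf, h⟩
    · have hn : t ^ ((k.natAbs : ℕ) : ℤ) ∈ M := by
        rcases Int.natAbs_eq k with h | h
        · rwa [← h]
        · have h1 : ((k.natAbs : ℕ) : ℤ) = -k := by omega
          rw [h1, zpow_neg]
          exact M.inv_mem hkM
      have hnpos : (0 : ℤ) < ((k.natAbs : ℕ) : ℤ) := by omega
      refine ⟨Set.image2 (fun f x => f * x) F0
        (Set.range (fun r : Fin k.natAbs => t ^ (r : ℕ))), hF0.image2 _ (Set.finite_range _), ?_⟩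
      rintro _ ⟨μ, hμ, j, rfl⟩
      have hj := Int.mul_ediv_add_emod j ((k.natAbs : ℕ) : ℤ)
      have hr1 := Int.emod_nonneg j hnpos.ne'
      have hr2 := Int.emod_lt_of_pos j hnpos
      set r := j % ((k.natAbs : ℕ) : ℤ) with hr
      obtain ⟨s, hs, f, hf, h1⟩ := hF0' (μ * (t ^ ((k.natAbs : ℕ) : ℤ)) ^ (j / ((k.natAbs : ℕ) : ℤ)))
        (M.mul_mem hμ (M.zpow_mem hn _))
      refine ⟨s, hs, f * t ^ r.toNat, ⟨f, hf, _, ⟨⟨r.toNat, by omega⟩, rfl⟩, rfl⟩, ?_⟩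
      have h2 : t ^ j = (t ^ ((k.natAbs : ℕ) : ℤ)) ^ (j / ((k.natAbs : ℕ) : ℤ)) *
          t ^ r.toNat := by
        rw [← zpow_mul, ← zpow_natCast t r.toNat, Int.toNat_of_nonneg hr1, ← zpow_add, hj]
      rw [h2, ← mul_assoc, h1, mul_assoc]
  · push Not at hdep
    have hind : ∀ k : ℤ, t ^ k ∈ M → k = 0 := by
      intro k hk
      by_contra hne
      exact hdep k hne hk
    have hind' : ∀ k : ℤ, t⁻¹ ^ k ∈ M → k = 0 := by
      intro k hk
      rw [inv_zpow, ← zpow_neg] at hk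
      have := hind _ hk
      omega
    have hord : ∀ s : G, (∀ k : ℤ, s ^ k ∈ M → k = 0) → ∀ k : ℕ, 0 < k → s ^ k ≠ 1 := by
      intro s hs k hk h1
      have := hs k (by rw [zpow_natCast, h1]; exact M.one_mem)
      omega
    obtain ⟨u1, hu1⟩ := exists_word ev hgen t
    obtain ⟨u2, hu2⟩ := exists_word ev hgen t⁻¹
    obtain ⟨c1, m1, d1, q1, hm1, hd1, hc1, hinj1, hdir1⟩ :=
      exists_path ev t (hord t hind) u1 hu1
    obtain ⟨c2, m2, d2, q2, hm2, hd2, hc2, hinj2, hdir2⟩ :=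
      exists_path ev t⁻¹ (hord t⁻¹ hind') u2 hu2
    have hx1 : Ctx ev N M t c1 m1 d1 q1 := ⟨hab, hMN, ht, hind, hm1, hd1, hc1, hinj1, hdir1⟩
    have hx2 : Ctx ev N M t⁻¹ c2 m2 d2 q2 :=
      ⟨hab, hMN, N.inv_mem ht, hind', hm2, hd2, hc2, hinj2, hdir2⟩
    obtain ⟨K, hK⟩ := exists_bound ev hgen ((fun f => f * q1) '' F0 ∪ (fun f => f * q2) '' F0)
      ((hF0.image _).union (hF0.image _))
    obtain ⟨T1, hT1, hTT1, hIm⟩ := thicken ev T hT K
    have hq : ∀ q, (∀ f ∈ F0, f * q ∈ (fun f => f * q1) '' F0 ∪ (fun f => f * q2) '' F0) →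
        ∀ μ ∈ M, Im ev T1 (μ * q) := by
      intro q hqq μ hμ
      obtain ⟨s, hs, f, hf, h1⟩ := hF0' μ hμ
      obtain ⟨z, hz, hz'⟩ := hK _ (hqq f hf)
      rw [hIm]
      refine ⟨z, hz, ?_⟩
      rw [hz', h1]
      have : s * f * q * (f * q)⁻¹ = s := by group
      rwa [this]
    have hq1 := hq q1 (fun f hf => Or.inl ⟨f, hf, rfl⟩)
    have hq2 := hq q2 (fun f hf => Or.inr ⟨f, hf, rfl⟩)
    set Z : Set G := (value ev) '' {z : List A | z.length ≤ K} with hZ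
    have hZfin : Z.Finite := (List.finite_length_le A K).image _
    set F1 : Set G := Set.image2 (fun f z => f * z) Fs Z with hF1
    have hF1fin : F1.Finite := hFs.image2 _ hZfin
    have hT1F : ∀ g, Im ev T1 g → ∃ μ ∈ M, ∃ f ∈ F1, g = μ * f := by
      intro g hg
      rw [hIm] at hg
      obtain ⟨z, hz, hz'⟩ := hg
      obtain ⟨μ, hμ, f, hf, h1⟩ := hFs' _ hz'
      refine ⟨μ, hμ, f * value ev z, ⟨f, hf, _, ⟨z, hz, rfl⟩, rfl⟩, ?_⟩
      rw [← mul_assoc, ← h1]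
      group
    obtain ⟨T2, hT2, h12, ⟨F3, hF3, hnew2⟩, F4, hF4, hcov2⟩ :=
      addRays' ev hx1 hsep T1 T1 hT1 hT1 (fun w hw => hw) F1 F1 hF1fin hF1fin hT1F
        (by
          intro g hg
          obtain ⟨μ, hμ, f, hf, h1⟩ := hT1F g hg
          exact ⟨0, le_rfl, μ, hμ, f, hf, by simpa using h1⟩)
        hq1
    obtain ⟨T3, hT3, h23, ⟨F5, hF5, hnew3⟩, F6, hF6, hcov3⟩ :=
      addRays' ev hx2 hsep T1 T2 hT1 hT2 h12 F1 (F1 ∪ F3) hF1fin (hF1fin.union hF3) hT1F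
        (by
          intro g hg
          rcases hnew2 g hg with h1 | ⟨k, hk, h1⟩
          · obtain ⟨μ, hμ, f, hf, h1⟩ := hT1F g h1
            exact ⟨0, le_rfl, μ, hμ, f, Or.inl hf, by simpa using h1⟩
          · exact ⟨-k, by omega, h1.neg.mono Set.subset_union_right⟩)
        hq2
    refine ⟨T3, hT3, ⟨F1 ∪ F3 ∪ F5, (hF1fin.union hF3).union hF5, ?_⟩,
      ⟨F4 ∪ F6, hF4.union hF6, ?_⟩⟩
    · intro g hg
      rcases hnew3 g hg with h1 | ⟨k, hk, μ, hμ, f, hf, h1⟩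
      · rcases hnew2 g h1 with h2 | ⟨k, hk, μ, hμ, f, hf, h2⟩
        · obtain ⟨μ, hμ, f, hf, h3⟩ := hT1F g h2
          exact ⟨μ, hM1 hμ, f, Or.inl (Or.inl hf), h3⟩
        · exact ⟨μ * t ^ k, ⟨μ, hμ, k, rfl⟩, f, Or.inl (Or.inr hf), h2⟩
      · refine ⟨μ * t⁻¹ ^ k, ⟨μ, hμ, -k, ?_⟩, f, Or.inr hf, h1⟩
        rw [inv_zpow, zpow_neg]
    · rintro _ ⟨μ, hμ, k, rfl⟩
      obtain ⟨n, hn⟩ := Int.eq_nat_or_neg k
      rcases hn with hn | hn
      · obtain ⟨s, ⟨w, hw, hws⟩, f, hf, h1⟩ := hcov2 μ hμ n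
        refine ⟨s, ⟨w, h23 w hw, hws⟩, f, Or.inl hf, ?_⟩
        rw [← h1, hn, zpow_natCast]
      · obtain ⟨s, hs, f, hf, h1⟩ := hcov3 μ hμ n
        refine ⟨s, hs, f, Or.inr hf, ?_⟩
        rw [← h1, hn, zpow_neg, zpow_natCast, inv_pow]

theorem tree_list' [Finite A] (ev : A → G) (hgen : Submonoid.closure (Set.range ev) = ⊤)
    (N : Subgroup G) [hNn : N.Normal] (hab : ∀ x ∈ N, ∀ y ∈ N, x * y = y * x)
    (hsep : Sep N)
    (l : List G) (hl : ∀ x ∈ l, x ∈ N) :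
    ∃ M : Subgroup G, M ≤ N ∧ (∀ x ∈ l, x ∈ M) ∧ ∃ T : Language A, Tree ev T ∧
      Approx ev T M := by
  induction l with
  | nil =>
    refine ⟨⊥, bot_le, by simp, ({[]} : Set (List A)), ⟨?_, ?_, ?_, ?_⟩, ⟨{1}, by simp, ?_⟩,
      ⟨{1}, by simp, ?_⟩⟩
    · refine isRegular_of_fold (σ := Bool) (fun _ _ => false) true {b | b = true} _ ?_
      intro w
      rcases w.eq_nil_or_concat with rfl | ⟨v, b, rfl⟩
      · exact ⟨fun _ => rfl, fun _ => rfl⟩
      · constructor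
        · intro h
          have : v.concat b = [] := h
          simp at this
        · intro h
          rw [List.concat_eq_append, List.foldl_append] at h
          have : false = true := h
          cases this
    · rintro u v hv huv
      have hv' : v = [] := hv
      subst hv'
      exact List.prefix_nil.1 huv
    · intro u hu v hv _
      exact (show u = [] from hu).trans (show v = [] from hv).symm
    · intro g
      refine ⟨{1}, by simp, ?_⟩
      intro u hu v hv _ i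
      have hu' : u = [] := hu
      have hv' : v = [] := hv
      subst hu' hv'
      simp [value]
    · rintro g ⟨w, hw, rfl⟩
      have hw' : w = [] := hw
      subst hw'
      exact ⟨1, Subgroup.one_mem _, 1, rfl, by simp [value]⟩
    · intro μ hμ
      rw [Subgroup.mem_bot] at hμ
      exact ⟨1, ⟨[], rfl, rfl⟩, 1, rfl, by simp [hμ]⟩
  | cons t l ih =>
    obtain ⟨M, hMN, hlM, T, hT, hA⟩ := ih (fun x hx => hl x (List.mem_cons_of_mem _ hx))
    obtain ⟨M', h1, h2, h3, T', hT', hA'⟩ := stage' ev hgen N M hab hMN t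
      (hl t List.mem_cons_self) hsep T hT hA
    refine ⟨M', h3, ?_, T', hT', hA'⟩
    intro x hx
    rcases List.mem_cons.1 hx with rfl | hx
    · exact h2
    · exact h1 (hlM x hx)


end Pool.Agent.H47.VC
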